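import Mathlib
import Pool.Agent.Y671.WD.Abs
import Pool.Agent.Y671.WD.Transfer

/-!
The weak relative Dixmier property of the inclusion of the left von Neumann algebra of a countable
group into the commutant of the right translations by a relatively icc subgroup `S`: for normal `S`
it is equivalent to the amenability of the quotient.
-/

set_option autoImplicit false
open Pool.Agent.Y671.WD

namespace Pool.Agent.Results.MP_7e3bdd_an.AmenabilityCriterion

theorem result (Γ : Type) [Group Γ] [Countable Γ] (S : Subgroup Γ) (hicc : RelIcc S)
    (H : Type) [NormedAddCommGroup H] [InnerProductSpace ℂ H] [CompleteSpace H]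
    (b : HilbertBasis Γ ℂ H) :
    ∃ N M : VonNeumannAlgebra H, IsRightComm b ⊤ N ∧ IsRightComm b S M ∧ IrredFactors N M ∧
      (WRDP N M → RMean S) ∧ (Hecke S → RMean S → WRDP N M) ∧
      ∀ [S.Normal], WRDP N M ↔ Amen (Γ ⧸ S) :=
  mainAbs S hicc H b

end Pool.Agent.Results.MP_7e3bdd_an.AmenabilityCriterion
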