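import Mathlib
import Pool.Agent.Y671.WD.Abs
import Pool.Agent.Y671.WD.Cross2

/-!
For every factor `Q`, of any type, and every outer action of a group `G` on `Q`, the inclusion of the
crossed product `Q ⋊ G` into `Q ⊗ B(ℓ²(G))` is an irreducible inclusion of factors; if it has the weak
relative Dixmier property, then `G` is amenable.
-/

set_option autoImplicit false
open Pool.Agent.Y671.WD

namespace Pool.Agent.Results.MP_7e3bdd_an.CrossedProducts

theorem result (K : Type) [NormedAddCommGroup K] [InnerProductSpace ℂ K] [CompleteSpace K]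
    [Nontrivial K] (Q : VonNeumannAlgebra K) (hQ : IsFactor Q) (G : Type) [Group G]
    (v : G → K →L[ℂ] K) (hv : IsOuterAction Q v)
    (H : Type) [NormedAddCommGroup H] [InnerProductSpace ℂ H] [CompleteSpace H]
    (V : G → K →ₗᵢ[ℂ] H) (hV : IsOrthSum V) :
    ∃ N M : VonNeumannAlgebra H, IsCrossedProd V v Q N ∧ IsTensor V Q M ∧ IrredFactors N M ∧
      (WRDP N M → Amen G) :=
  mainB Q hQ v hv V hV

end Pool.Agent.Results.MP_7e3bdd_an.CrossedProducts
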