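import Mathlib
import Pool.Agent.Y671.WD.Abs
import Pool.Agent.Y671.WD.Trace
import Pool.Agent.Y671.WD.Reg
import Pool.Agent.Y671.WD.Reg4

/-!
Let `Q ⊆ N` be an irreducible inclusion, where `N` has a cyclic trace vector (a finite factor in its
standard form), such that `N` is generated by `Q` and unitaries `U g`, `g ∈ G`, normalizing `Q` (a
cocycle crossed product of `Q` by `G`). The basic construction inclusion `N ⊆ ⟨N, e_Q⟩` is an
irreducible inclusion of factors, and it has the weak relative Dixmier property if and only if the
group `G` is amenable.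
-/

set_option autoImplicit false
open Pool.Agent.Y671.WD

namespace Pool.Agent.Results.MP_7e3bdd_an.RegularSubfactors

theorem result (H : Type) [NormedAddCommGroup H] [InnerProductSpace ℂ H] [CompleteSpace H]
    (N Q : VonNeumannAlgebra H) (Ω : H) (hΩ : IsTraceVector N Ω) (hQ : IsIrredSub N Q)
    (G : Type) [Group G] (U : G → H →L[ℂ] H) (hU : IsCrossed N Q U) :
    IrredFactors N (basic N Q Ω) ∧ (WRDP N (basic N Q Ω) ↔ Amen G) :=
  mainC hΩ hQ hU

end Pool.Agent.Results.MP_7e3bdd_an.RegularSubfactors
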